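import Pool.Agent.H14.TA.Stmts

/-!
# Module `LG`: comparison of local and global walls
-/

namespace TA

theorem h46_iota_swap (κ : ℕ) (x y : Fin 3) (t : D κ) :
    iota κ x y t = iota κ y x (dswap κ t) := by
  have : iota κ x y = (iota κ y x).comp (dswap κ) := by
    apply D_hom_ext
    intro i
    cases i <;> simp [dswap]
  exact DFunLike.congr_fun this t

theorem h46_dswap_dswap (κ : ℕ) (t : D κ) : dswap κ (dswap κ t) = t := by
  have : (dswap κ).comp (dswap κ) = MonoidHom.id _ := by
    apply D_hom_ext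
    intro i
    cases i <;> simp [dswap]
  exact DFunLike.congr_fun this t

theorem h46_dswap_del (κ : ℕ) : dswap κ (del κ) = del' κ := by
  simp [dswap, del, del']

theorem h46_dswap_del' (κ : ℕ) : dswap κ (del' κ) = del κ := by
  simp [dswap, del, del']

theorem h46_dswap_mem (κ : ℕ) (t : D κ) :
    dswap κ t ∈ Subgroup.zpowers (del κ) ↔ t ∈ Subgroup.zpowers (del' κ) := by
  constructor
  · intro h
    obtain ⟨n, hn⟩ := Subgroup.mem_zpowers_iff.1 h
    refine Subgroup.mem_zpowers_iff.2 ⟨n, ?_⟩
    rw [← h46_dswap_dswap κ t, ← hn, map_zpow, h46_dswap_del]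
  · intro h
    obtain ⟨n, hn⟩ := Subgroup.mem_zpowers_iff.1 h
    refine Subgroup.mem_zpowers_iff.2 ⟨n, ?_⟩
    rw [← hn, map_zpow, h46_dswap_del']

theorem lg (hQA : S_QA) (hGF : S_GOODF) : S_LG := by
  intro κ hκ x f
  have h1 : gen κ (gf x f).1 = iota κ x (x + 1) (dgen κ f.letter) := by
    cases f <;> simp [gf, LFam.letter]
  have h2 : ∀ t : D κ, iota κ x (x + 1) t ∈ QF κ (gf x f) ↔ t ∈ f.B κ := by
    intro t
    cases f with
    | Va =>
      have := (hQA κ hκ x (BF κ (x, false)) (hGF κ hκ (x, false))).2 false t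
      simpa [QF, gf, BF, yy, LFam.B] using this
    | Vb =>
      have := (hQA κ hκ (x + 1) (BF κ (x + 1, false)) (hGF κ hκ (x + 1, false))).2 true
        (dswap κ t)
      have hx : x + 1 + 2 = x := by
        fin_cases x <;> rfl
      have h3 : yy (x + 1) true = x := by simp [yy, hx]
      rw [h3, ← h46_iota_swap] at this
      rw [show QF κ (gf x LFam.Vb) = QQ κ (x + 1) (BF κ (x + 1, false)) from rfl, this]
      simpa [BF, LFam.B] using h46_dswap_mem κ t
    | Ha =>
      have := (hQA κ hκ x (BF κ (x, true)) (hGF κ hκ (x, true))).2 false t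
      simpa [QF, gf, BF, yy, LFam.B] using this
  refine ⟨h1, h2, ?_⟩
  intro s hs
  refine ⟨?_, ?_, ?_, ?_⟩
  · intro t g h
    simp only [map_mul, map_inv]
    exact hs.mul _ _ _
  · intro t ht
    rw [← h1]
    exact hs.self_mem _ ((h2 t).2 ht)
  · intro t ht
    rw [← h1]
    exact hs.self_not_mem _ fun h => ht ((h2 t).1 h)
  · intro t y hy
    have h4 : iota κ x (x + 1) (dgen κ y) = gen κ (if y then x + 1 else x) := by
      cases y <;> simp
    rw [h4]
    apply hs.other
    have hne : x + 1 ≠ x := by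
      fin_cases x <;> decide
    cases f <;> cases y <;> simp_all [gf, LFam.letter, hne.symm]

end TA
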