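import Pool.Agent.H14.TA.Stmts

/-!
# Module `M1C`: long parts have strict walls, and few walls bound the length of a part
-/

namespace TA

theorem h46_ev_iota (κ : ℕ) (x y : Fin 3) (l : List (Bool × ℤ)) :
    ev (gen κ) (l.map fun s => ((if s.1 then y else x : Fin 3), s.2)) =
      iota κ x y (ev (dgen κ) l) := by
  induction l with
  | nil => simp
  | cons s l ih =>
    obtain ⟨b, e⟩ := s
    rw [List.map_cons, ev_cons, ih, ev_cons, map_mul, map_zpow]
    cases b <;> simp

theorem h46_gf_inj {x : Fin 3} {f f' : LFam} (h : gf x f = gf x f') : f = f' := by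
  have hne : x + 1 ≠ x := by fin_cases x <;> decide
  cases f <;> cases f' <;> simp_all [gf]

theorem m1c_of (hLG : S_LG) (hD3 : S_D3) (hM1A : S_M1A) (hRETL : S_RETL) : S_M1C := by
  intro κ hκ σ hσ w w1 v w2 z hG hP
  obtain ⟨x, hx⟩ : ∃ x : Fin 3, x = z + 1 := ⟨_, rfl⟩
  have hne : x ≠ x + 1 := by fin_cases x <;> decide
  have hlet : ∀ s ∈ v, s.1 = x ∨ s.1 = x + 1 := by
    intro s hs
    have h1 := hP.miss s hs
    generalize s.1 = u at h1
    have h2 : ∀ z u : Fin 3, u ≠ z → u = z + 1 ∨ u = z + 1 + 1 := by decide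
    rw [hx]
    exact h2 z u h1
  obtain ⟨l', -, -, hl'⟩ := (hRETL κ x (x + 1) hne).2.1 v hlet
  obtain ⟨α, hα⟩ : ∃ α, α = ev (dgen κ) l' := ⟨_, rfl⟩
  rw [← hα] at hl'
  have hLGx := fun f => hLG κ hκ x f
  let σ' : LFam → D κ → D κ → ZMod 2 := fun f t g =>
    σ (gf x f) (iota κ x (x + 1) t) (iota κ x (x + 1) g)
  have hσ' : LSides κ σ' := fun f => (hLGx f).2.2 _ (hσ (gf x f))
  have hvG : Geo (gen κ) v := hG.sub ⟨w1, w2, hP.eq.symm⟩
  have hgeo : ∀ l : List (Bool × ℤ), ev (dgen κ) l = α → v.length ≤ l.length := by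
    intro l hl
    have h1 := hvG (l.map fun s => ((if s.1 then x + 1 else x : Fin 3), s.2)) (by
      rw [h46_ev_iota, hl, hl'])
    simpa using h1
  have hstr : ∀ f t, LStrict κ σ' f t α →
      GStrict κ σ (gf x f) (ev (gen κ) w1 * iota κ x (x + 1) t) w1 v := by
    rintro f t ⟨h1, h2, h3⟩
    refine ⟨?_, ?_, ?_⟩
    · rw [hl', inv_mul_cancel_left]
      exact h1
    · intro n hn
      apply h2 n
      rw [← (hLGx f).2.1, map_mul, map_inv, map_zpow, ← (hLGx f).1]
      have h4 : (ev (gen κ) w1 * iota κ x (x + 1) t)⁻¹ * ev (gen κ) w1 * gen κ (gf x f).1 ^ n =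
          (iota κ x (x + 1) t)⁻¹ * gen κ (gf x f).1 ^ n := by group
      rwa [h4] at hn
    · intro n hn
      apply h3 n
      rw [← (hLGx f).2.1, map_mul, map_mul, map_inv, map_zpow, ← (hLGx f).1]
      have h4 : (ev (gen κ) w1 * iota κ x (x + 1) t)⁻¹ * ev (gen κ) (w1 ++ v) *
          gen κ (gf x f).1 ^ n =
          (iota κ x (x + 1) t)⁻¹ * iota κ x (x + 1) α * gen κ (gf x f).1 ^ n := by
        rw [ev_append, hl']; group
      rwa [h4] at hn
  obtain ⟨hA, hB⟩ := hD3 κ (by omega) σ' hσ' α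
  constructor
  · intro h7
    by_contra hno
    obtain ⟨l, hl, hlen⟩ := hA (fun f t hs => hno ⟨_, _, hstr f t hs⟩)
    have := hgeo l hl
    omega
  · intro R hR
    obtain ⟨l, hl, hlen⟩ := hB R (by
      intro T' hT' hTs
      let φ : LFam × D κ ↪ Fam × G κ :=
        ⟨fun p => (gf x p.1, ev (gen κ) w1 * iota κ x (x + 1) p.2), by
          rintro ⟨f, t⟩ ⟨f', t'⟩ h
          simp only [Prod.mk.injEq] at h
          have h1 := h46_gf_inj h.1
          have h2 := iota_injective κ hne (mul_left_cancel h.2)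
          rw [h1, h2]⟩
      have h1 := hR (T'.map φ) (by
        intro p hp q hq hpq hQ
        rw [Finset.mem_map] at hp hq
        obtain ⟨p', hp', rfl⟩ := hp
        obtain ⟨q', hq', rfl⟩ := hq
        congr 1
        have h2 : p'.1 = q'.1 := h46_gf_inj hpq
        apply hT' p' hp' q' hq' h2
        rw [← (hLGx p'.1).2.1, map_mul, map_inv]
        have h4 : (φ p').2⁻¹ * (φ q').2 =
          (iota κ x (x + 1) p'.2)⁻¹ * iota κ x (x + 1) q'.2 := by
          change (ev (gen κ) w1 * iota κ x (x + 1) p'.2)⁻¹ *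
            (ev (gen κ) w1 * iota κ x (x + 1) q'.2) = _
          group
        rw [h4] at hQ
        exact hQ) (by
        intro p hp
        rw [Finset.mem_map] at hp
        obtain ⟨p', hp', rfl⟩ := hp
        exact (hM1A κ hκ σ hσ w w1 v w2 z hG hP _ _ (hstr p'.1 p'.2 (hTs p' hp'))).2.2)
      rwa [Finset.card_map] at h1)
    exact (hgeo l hl).trans hlen

end TA
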