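import Pool.Agent.H14.TA.Stmts

/-!
# Module `M3`
-/

namespace TA

theorem m3_of (hALG : S_ALG) : S_M3 := by
  intro κ hκ w l1 s l2 m1 s' m2 hG hw hw' hlt hss t t' hc1 hc2 hc3 hc4
  obtain ⟨-, a, -, ha⟩ := hc1
  obtain ⟨-, b, -, hb⟩ := hc2
  obtain ⟨-, a', -, ha'⟩ := hc3
  obtain ⟨-, b', -, hb'⟩ := hc4
  -- the word between
  obtain ⟨m', hm'⟩ : ∃ m', m1 = l1 ++ s :: m' := by
    have h1 : l1 ++ s :: l2 = m1 ++ s' :: m2 := hw.symm.trans hw'
    have h2 : l1 ++ [s] <+: w := ⟨l2, by rw [hw]; simp⟩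
    have h3 : m1 <+: w := ⟨s' :: m2, hw'.symm⟩
    have h4 : l1 ++ [s] <+: m1 := List.prefix_of_prefix_length_le h2 h3 (by simp; omega)
    obtain ⟨m', hm'⟩ := h4
    exact ⟨m', by rw [← hm']; simp⟩
  subst hm'
  set x := s.1 with hx
  set e := s.2 with he
  set g := ev (gen κ) l1 with hg
  set Q := QF κ (x, false) with hQ
  set y := ev (gen κ) m' with hy
  have hev : ev (gen κ) (l1 ++ s :: m') = g * gen κ x ^ e * y := by
    rw [ev_append, ev_cons, mul_assoc]
  rw [hev] at hb hb'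
  have hq : gen κ x ^ (-a) * gen κ x ^ e * y * gen κ x ^ b ∈ Q := by
    have := Q.mul_mem (Q.inv_mem ha) hb
    have h5 : (t⁻¹ * g * gen κ x ^ a)⁻¹ * (t⁻¹ * (g * gen κ x ^ e * y) * gen κ x ^ b) =
        gen κ x ^ (-a) * gen κ x ^ e * y * gen κ x ^ b := by
      rw [zpow_neg]; group
    rwa [h5] at this
  have hq' : gen κ x ^ (-a') * gen κ x ^ e * y * gen κ x ^ b' ∈ Q := by
    have := Q.mul_mem (Q.inv_mem ha') hb'
    have h5 : (t'⁻¹ * g * gen κ x ^ a')⁻¹ * (t'⁻¹ * (g * gen κ x ^ e * y) * gen κ x ^ b') =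
        gen κ x ^ (-a') * gen κ x ^ e * y * gen κ x ^ b' := by
      rw [zpow_neg]; group
    rwa [h5] at this
  by_cases haa : a = a'
  · subst haa
    have := Q.mul_mem ha (Q.inv_mem ha')
    have h5 : (t⁻¹ * g * gen κ x ^ a) * (t'⁻¹ * g * gen κ x ^ a)⁻¹ = t⁻¹ * t' := by group
    rwa [h5] at this
  · exfalso
    have hcomm := hALG κ hκ x _ hq _ hq' (a' - a) (b' - b) (by omega) (by
      rw [show a' - a = (-a) + a' by ring, show b' - b = (-b) + b' by ring, zpow_add, zpow_add,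
        zpow_neg (gen κ x) a', zpow_neg (gen κ x) b]
      group)
    -- `y` commutes with `x`
    have hxx : ∀ n : ℤ, Commute (gen κ x ^ n) (gen κ x) := fun n =>
      (Commute.refl (gen κ x)).zpow_left n
    have hyc : Commute y (gen κ x) := by
      have h6 : y = gen κ x ^ (a - e) * (gen κ x ^ (-a) * gen κ x ^ e * y * gen κ x ^ b) *
          gen κ x ^ (-b) := by
        have h7 : gen κ x ^ (a - e) * (gen κ x ^ (-a) * gen κ x ^ e * y * gen κ x ^ b) *
          gen κ x ^ (-b) = (gen κ x ^ (a - e) * gen κ x ^ (-a) * gen κ x ^ e) * y *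
            (gen κ x ^ b * gen κ x ^ (-b)) := by group
        rw [h7, ← zpow_add, ← zpow_add, ← zpow_add, show a - e + -a + e = 0 by ring,
          show b + -b = 0 by ring]
        simp
      rw [h6]
      exact ((hxx _).mul_left hcomm).mul_left (hxx _)
    have hinf : (s :: m' ++ [s']) <:+: w := ⟨l1, m2, by rw [hw']; simp⟩
    have hgeo := hG.sub hinf
    have h8 := hgeo (m' ++ [(x, e + s'.2)]) (by
      rw [ev_append, ev_append, ev_cons, ev_cons, ev_nil, ev_cons, ev_nil, hss]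
      simp only [mul_one]
      rw [← hx, ← he, ← hy, zpow_add, ← mul_assoc, (hyc.zpow_right e).eq])
    simp at h8

end TA
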